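import Pool.Agent.U643.GP.Ser

/-!
# Extensions whose kernels are built from graph products with permuted vertex groups

`C` is any class of groups with the closure properties `ClosedE C` which is closed under extensions with
free kernel. Both are known for the class of the groups which satisfy the K-theoretic Farrell–Jones
conjecture with coefficients in additive categories and with finite wreath products.

Call a normal subgroup `N` of a group `G` a `C`-kernel if `N ⟨g⟩` is in `C` for all `g` in `G`. If `N` is a
`C`-kernel and `G ⧸ N` is in `C` then `G` is in `C`; this is the usual extension criterion.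

Theorem. Let `N` have an ascending series of normal subgroups of `G`, of any ordinal length, each of whose
factors is of one of the following kinds. Then `N` is a `C`-kernel; in particular `G` is in `C` if `G ⧸ N` is
in `C`. The main case is that of one factor of the first kind.

(1) The graph product of subgroups `A v` along any graph, finite or infinite, such that every
element of `G` permutes, modulo `N`, the subgroups `A v` by an automorphism of the graph, and every `A v` is a
`C`-kernel in its normalizer. The extension need not split, the groups `A v` may be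
different, the elements which fix a vertex may act on its group in a nontrivial way, and the orbits may be
infinite and contain adjacent vertices. Special cases: restricted direct products (complete graphs), free
products (no edges), right-angled Artin and Coxeter groups of infinite rank, graph-wreath products.

(2) The free product of a graph product as in (1) and a free group, where `G` only permutes the
`N`-conjugacy classes of the subgroups `A v` and every `g` has, for every vertex `v`, a power `g ^ k` such
that no power of `g ^ k` moves `v` to a neighbour of `v`.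

(3) Locally finite groups; `C`-kernels (for example abelian groups, if `C` contains the solvable groups).

Proof of (1). Let `g` permute the vertex groups like the automorphism `π` of the graph and let `S` be a finite
set of vertices. The partial isomorphism `S → π S` extends to an automorphism `τ` of a finite graph which
contains the graph on `S ∪ π S` (Hrushovski). Let `D` be the product of the groups `A u ⟨c u⟩` where `u` runs
through representatives of the orbits of `S` under `π` and `c u` generates the group of the powers of `g` which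
fix `u`, let `B` be the product of the groups `A u`. After the choice of powers of `g` which move `u` to
`v` the conjugation by `g` maps `A v` to `A (π v)` by an element `z v` of `D`, in the coordinate of the orbit.
So the conjugation by `g` on the subgroup generated by the groups `A v`, `v ∈ S`, is induced by the
automorphism `b_t ↦ (z_t b z_t⁻¹)_{τ t}` of the graph product of the copies of `B` along the finite graph. Its
mapping torus is in `C` by the case of finite graphs, and the realization criterion applies.
-/

set_option autoImplicit false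

namespace Pool.Agent.Results.MP_f7db47_al.GraphProductKernels

open Pool.Agent.Y110.FJ (ClosedE)

section defs

variable {G : Type} [Group G]

/-- `N ⟨g⟩` is in `C` for all `g` -/
def IsKernel (C : ∀ (G : Type) [Group G], Prop) (N : Subgroup G) : Prop :=
  ∀ g : G, C ↥(N ⊔ Subgroup.zpowers g)

/-- `g A g⁻¹ = B` -/
def Conj (g : G) (A B : Subgroup G) : Prop := ∀ x, x ∈ A ↔ g * x * g⁻¹ ∈ B

/-- `A v` is a `C`-kernel in its normalizer for all `v` -/
def VertexKernels (C : ∀ (G : Type) [Group G], Prop) {V : Type} (A : V → Subgroup G) : Prop :=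
  ∀ (v : V) (g : G), Conj g (A v) (A v) → C ↥(A v ⊔ Subgroup.zpowers g)

/-- `N` is the graph product of its subgroups `A v` along the graph `Λ`: it is generated by them, `A v` and
`A w` commute for adjacent `v`, `w`, and it is universal with this property. -/
structure IsGraphProduct {V : Type} (Λ : SimpleGraph V) (A : V → Subgroup G) (N : Subgroup G) :
    Prop where
  gen : ⨆ v, A v = N
  comm : ∀ v w, Λ.Adj v w → ∀ a ∈ A v, ∀ b ∈ A w, a * b = b * a
  univ : ∀ (H : Type) [Group H] (f : ∀ v, A v →* H),
    (∀ v w, Λ.Adj v w → ∀ (a : A v) (b : A w), f v a * f w b = f w b * f v a) →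
    ∃ φ : N →* H, ∀ (v : V) (a : A v) (ha : (a : G) ∈ N), φ ⟨a, ha⟩ = f v a

/-- Every `g` permutes the subgroups `A v`, modulo `N`, by an automorphism of the graph. -/
def Permuted {V : Type} (Λ : SimpleGraph V) (A : V → Subgroup G) (N : Subgroup G) : Prop :=
  ∀ g : G, ∃ n ∈ N, ∃ π : Λ ≃g Λ, ∀ v, Conj (n * g) (A v) (A (π v))

/-- `N` is the free product of the graph product of its subgroups `A v` and of the free group on its
elements `x j`. -/
structure IsFreeProduct {V J : Type} (Λ : SimpleGraph V) (A : V → Subgroup G) (x : J → G)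
    (N : Subgroup G) : Prop where
  gen : (⨆ v, A v) ⊔ Subgroup.closure (Set.range x) = N
  comm : ∀ v w, Λ.Adj v w → ∀ a ∈ A v, ∀ b ∈ A w, a * b = b * a
  univ : ∀ (H : Type) [Group H] (f : ∀ v, A v →* H) (y : J → H),
    (∀ v w, Λ.Adj v w → ∀ (a : A v) (b : A w), f v a * f w b = f w b * f v a) →
    ∃ φ : N →* H, (∀ (v : V) (a : A v) (ha : (a : G) ∈ N), φ ⟨a, ha⟩ = f v a) ∧
      ∀ (j : J) (hj : x j ∈ N), φ ⟨x j, hj⟩ = y j

/-- `g A v g⁻¹` and `A w` are conjugate in `N`. -/
def Moves {V : Type} (A : V → Subgroup G) (N : Subgroup G) (g : G) (v w : V) : Prop :=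
  ∃ n ∈ N, Conj (n * g) (A v) (A w)

/-- The conjugacy classes of the nontrivial subgroups `A v` are permuted, and for all `g` and `v` some
positive power of `g` has no power which moves `v` to a neighbour of `v`. -/
def ClassesPermuted {V : Type} (Λ : SimpleGraph V) (A : V → Subgroup G) (N : Subgroup G) : Prop :=
  (∀ v, A v ≠ ⊥) ∧ (∀ (g : G) (v : V), ∃ w, Moves A N g v w) ∧
    ∀ (g : G) (v : V), ∃ k : ℕ, 0 < k ∧ ∀ (m : ℤ) (w : V), Moves A N (g ^ ((k : ℤ) * m)) v w →
      ¬ Λ.Adj v w

/-- the factors in (1), (2) and (3) -/
def Good (C : ∀ (G : Type) [Group G], Prop) (N : Subgroup G) : Prop :=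
  (∃ (V : Type) (Λ : SimpleGraph V) (A : V → Subgroup G),
    IsGraphProduct Λ A N ∧ Permuted Λ A N ∧ VertexKernels C A) ∨
  (∃ (V J : Type) (Λ : SimpleGraph V) (A : V → Subgroup G) (x : J → G),
    IsFreeProduct Λ A x N ∧ ClassesPermuted Λ A N ∧ VertexKernels C A) ∨
  (∀ E : Set G, E.Finite → E ⊆ N → Finite (Subgroup.closure E)) ∨
  IsKernel C N

/-- `K' / K` is good for some `K' > K` in `𝒮`. -/
def Step (C : ∀ (G : Type) [Group G], Prop) (𝒮 : Set (Subgroup G)) (K : Subgroup G) : Prop :=
  ∀ _ : K.Normal, ∃ K' ∈ 𝒮, K < K' ∧ Good C (K'.map (QuotientGroup.mk' K))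

/-- `𝒮` is an ascending series of normal subgroups of `G` from `⊥` to `N` with good factors: a set of
normal subgroups which contains the unions of its nonempty chains and for each `K ≠ N` in it a larger `K'`
such that `K' / K` is good. -/
structure Series (C : ∀ (G : Type) [Group G], Prop) (N : Subgroup G) (𝒮 : Set (Subgroup G)) :
    Prop where
  normal : ∀ K ∈ 𝒮, K.Normal
  bot : ⊥ ∈ 𝒮
  union : ∀ c ⊆ 𝒮, c.Nonempty → IsChain (· ≤ ·) c → sSup c ∈ 𝒮
  step : ∀ K ∈ 𝒮, K ≠ N → Step C 𝒮 K

end defs

section prf

open Q30.FJ

variable {G V J : Type} [Group G] {Λ : SimpleGraph V} {A : V → Subgroup G} {N : Subgroup G}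

theorem gprod_of (h : IsGraphProduct Λ A N) : GProd Λ A N := by
  have hle : ∀ v, A v ≤ N := by
    intro v
    rw [← h.gen]
    exact le_iSup A v
  refine ⟨hle, ?_, h.comm, ?_⟩
  · intro M hM
    rw [← h.gen]
    exact iSup_le hM
  · intro H _ f hf
    obtain ⟨φ, hφ⟩ := h.univ H f hf
    exact ⟨φ, fun v a => hφ v a _⟩

theorem gfree_of {x : J → G} (h : IsFreeProduct Λ A x N) : GFree Λ A x N := by
  have hle : ∀ v, A v ≤ N := by
    intro v
    rw [← h.gen]
    exact (le_iSup A v).trans le_sup_left
  have hmem : ∀ j, x j ∈ N := by
    intro j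
    rw [← h.gen]
    exact Subgroup.mem_sup_right (Subgroup.subset_closure ⟨j, rfl⟩)
  refine ⟨hle, hmem, ?_, h.comm, ?_⟩
  · intro M hM hxM
    rw [← h.gen]
    refine sup_le (iSup_le hM) ?_
    rw [Subgroup.closure_le]
    rintro _ ⟨j, rfl⟩
    exact hxM j
  · intro H _ f y hf
    obtain ⟨φ, hφ, hy⟩ := h.univ H f y hf
    exact ⟨φ, fun v a => hφ v a _, fun j => hy j _⟩

end prf

theorem good_kernel {C : ∀ (G : Type) [Group G], Prop} (hF : Q30.FJ.ClosedF C) {G : Type} [Group G]
    (N : Subgroup G) [N.Normal] (h : Good C N) : IsKernel C N := by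
  rcases h with ⟨V, Λ, A, h1, h2, h3⟩ | ⟨V, J, Λ, A, x, h1, ⟨h4, h5, h6⟩, h3⟩ | h | h
  · refine Pool.Agent.U643.GP.gp_kern hF (gprod_of h1) ?_ h3
    intro g
    obtain ⟨n, hn, π, hπ⟩ := h2 g
    exact ⟨n, hn, π.toEquiv, fun v w => π.map_rel_iff, hπ⟩
  · exact Pool.Agent.U643.GP.gf_kern hF (gfree_of h1) h4 h5 h6 h3
  · intro g
    refine Q30.FJ.loc_fin hF.base _ (N.subgroupOf (N ⊔ Subgroup.zpowers g)) ?_
      (Pool.Agent.U643.GP.cyc_quot hF.base.base N g)
    intro E hE hEN
    have h1 := h _ (hE.image Subtype.val) (by
      rintro _ ⟨y, hy, rfl⟩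
      exact hEN hy)
    have h2 : Subgroup.closure (Subtype.val '' E) =
        (Subgroup.closure E).map (N ⊔ Subgroup.zpowers g).subtype := by
      rw [MonoidHom.map_closure]
      rfl
    rw [h2] at h1
    exact Finite.of_injective ((Subgroup.closure E).equivMapOfInjective
      (N ⊔ Subgroup.zpowers g).subtype (N ⊔ Subgroup.zpowers g).subtype_injective)
      (MulEquiv.injective _)
  · exact h

theorem result (C : ∀ (G : Type) [Group G], Prop) (hC : ClosedE C)
    (hfree : ∀ (G : Type) [Group G] (N : Subgroup G) [N.Normal],
      IsFreeGroup N → C (G ⧸ N) → C G)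
    (G : Type) [Group G] (N : Subgroup G) [N.Normal] (𝒮 : Set (Subgroup G))
    (h : Series C N 𝒮) : IsKernel C N ∧ (C (G ⧸ N) → C G) := by
  have hF : Q30.FJ.ClosedF C := ⟨hC, hfree⟩
  have h0 : IsKernel C N := by
    refine Pool.Agent.U643.GP.series hC N 𝒮 h.normal h.bot h.union ?_
    intro K hK hne hKn
    obtain ⟨K', hK', hlt, hg⟩ := h.step K hK hne hKn
    refine ⟨K', hK', hlt, fun g => Pool.Agent.U643.GP.kern_img ?_ g⟩
    have h1 : K'.Normal := h.normal K' hK'
    have h2 : (K'.map (QuotientGroup.mk' K)).Normal :=
      Subgroup.Normal.map h1 _ (QuotientGroup.mk'_surjective K)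
    exact good_kernel hF _ hg
  exact ⟨h0, fun hQ => Pool.Agent.U643.GP.kern_ext hC N h0 hQ⟩

end Pool.Agent.Results.MP_f7db47_al.GraphProductKernels
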