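import Pool.Agent.U442.FJ.IA5

/-!
# Farrell–Jones groups: bounded automata over infinite alphabets

`C` is any class of groups with the closure properties `ClosedE C`, all of which are published for
the class of the groups that satisfy the Farrell–Jones conjecture with coefficients and finite wreath
products. Let `X` be a set, finite or infinite, and `Q` a group of permutations of `X`.

(1) Let `Q` and `Γ` be in `C`, and let `ψ : Γ → Γ ≀ Sym X` be a homomorphism such that every `ψ γ` has
finitely many different sections and permutes `X` like an element of `Q`. Then the quotient of `Γ` by the
elements which die under `ψ` is in `C`.

(2) Let the image of `Q` in `Sym X / FSym X` be in `C`, where `FSym X` is the group of the finitely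
supported permutations. Let `G` be a group of automorphisms of the rooted tree `X^*`, generated by
automorphisms which have finitely many different sections, have their vertex permutations in `Q` and are
of bounded activity: for some `c` and all `n` there are at most `c` words of length `n` below which they
are not finitary. Then `G` is in `C`.

(3) The assumption on `Q` in (2) holds if `Q` is in `C` and contains no finitely supported permutation
other than `1`, for instance if `Q` is torsion-free and in `C`, and for all `Q` if `X` is finite.

For finite `X` this is `MP_490288_al.BoundedAutomata` of the starting library. Over infinite alphabets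
such groups occur as iterated monodromy groups of post-singularly finite entire functions, for which
B. Reinke proved the analogue of (2) for amenability (if the monodromy group of the function is elementary
amenable then so is the iterated monodromy group amenable).

Outline of the proof. (1) The kernel of the `n`-th iterate of the recursion has quotient in `C`; the
inductive step is the theorem on finite-valued wreath products over infinite sets
(`MP_b6f35e_al.FiniteValuedWreath`). (2) One may add `FSym X` to `Q`, as `FSym X` is locally finite. The
starting library has a cover of the group generated by the automorphisms of depth at most `k` and the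
directed automorphisms: a free product with a recursion in which every element that acts trivially dies;
this holds for infinite `X` as well. For infinite `X` the factors are not locally finite and not known to
be in `C`. We take the subgroup of the cover generated by the finite-state automorphisms of depth at most
`k` with vertex permutations in `Q`, the finite-valued sequences of such steps, and the free factor. It
is a free product of groups in `C`, invariant under the recursion, and its recursion is finite-valued
with permutations in `Q`, so (1) applies. A finite-state automorphism of bounded activity has its
sections of some level in the image of this group: a singular ray along which the sections do not become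
finitary has finitely many letters, as it is determined by these sections.
-/

set_option autoImplicit false

namespace Pool.Agent.Results.MP_f7db47_al.InfiniteAlphabets

open Pool.Agent.Y462.SS (Wr Dies IsTree Sections)
open Pool.Agent.Y110.FJ (ClosedE)
open Pool.Agent.U442.IA

theorem result (C : ∀ (G : Type) [Group G], Prop) (hC : ClosedE C) (X : Type)
    (Q : Subgroup (Equiv.Perm X)) :
    (C Q → ∀ (Γ : Type) [Group Γ], C Γ → ∀ ψ : Γ →* Wr X Γ, (∀ γ, (ψ γ).p ∈ Q) →
      (∀ γ, (Set.range (ψ γ).s).Finite) →
      ∀ (K : Subgroup Γ) [K.Normal], (∀ γ, γ ∈ K ↔ Dies ψ γ) → C (Γ ⧸ K)) ∧
    (C (Q.map (QuotientGroup.mk' (FSym X))) →
      ∀ (G : Type) [Group G] (f : G →* Equiv.Perm (List X)), Function.Injective f →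
      ∀ S : Set G, Subgroup.closure S = ⊤ → (∀ s ∈ S, IsTree (f s)) →
      (∀ s ∈ S, (Sections (f s)).Finite) →
      (∀ s ∈ S, ∀ v : List X, ∃ q ∈ Q, ∀ x, f s (v ++ [x]) = f s v ++ [q x]) →
      (∀ s ∈ S, BA (f s)) → C G) ∧
    (C Q → (∀ q ∈ Q, {x | q x ≠ x}.Finite → q = 1) →
      C (Q.map (QuotientGroup.mk' (FSym X)))) :=
  ⟨fun hQ Γ _ hΓ ψ hp hfin K _ hK => t_limQ hC X Q hQ Γ hΓ ψ hp hfin K hK,
    fun hQ G _ f hf S hS hT hF hV hB => main hC X Q hQ G f hf S hS hT hF hV
      fun s hs => isBdd_of (hT s hs) (hF s hs) (hB s hs),
    fun hQ h => C_map_of hC Q hQ h⟩

end Pool.Agent.Results.MP_f7db47_al.InfiniteAlphabets
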