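import Pool.Agent.U709.HubD

/-!
# Groups acting on trees with edge groups which are visible at one end

`C` is any class of groups with the closure properties `ClosedE C`: it contains `ℤ`, is closed under
subgroups, finite products, free products, overgroups of finite index and directed colimits, and a group
`G` with a homomorphism onto a group `Q` in `C` is in `C` if the preimages of the virtually cyclic
subgroups of `Q` are in `C`. All this is known for the class of the groups whose wreath products with
finite groups satisfy the K-theoretic (and L-theoretic) Farrell-Jones conjecture with coefficients in
additive categories.

Let `G` act on a tree with vertex stabilizers in `C`, such that the vertices have two types, and edges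
join vertices of different types. There is no condition on the vertices of type `A` (except that their
stabilizers are in `C`); the other vertices are called hubs.

* (2) If the edge groups of each hub `b`, one for each orbit of the stabilizer of `b`, are independent in
  the first homology of the stabilizer of `b` (`E_{ab}` and the group generated by `[G_b, G_b]` and the
  groups `E_{a'b}` with `a'` not in `G_b a` intersect trivially), then `G` is in `C`.
* (3) In particular, an amalgam of `A` and `B` over a common subgroup `E` is in `C` if `A` and `B` are in
  `C` and `E` embeds in the first homology of `B`, without any condition on the inclusion of `E` in `A`.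
* (1) More generally, let `K b` be a normal subgroup of the stabilizer of the hub `b`; suppose that the
  images of the edge groups in `G_b / K b` are isomorphic to the edge groups, normal, independent (for
  edges in different orbits), that `G_b / K b` is generated by these images and their centralizer, and
  that the quotient of `G_b` by `K b` and the edge groups is in `C`. Then `G` is in `C`. For instance,
  retractions of hubs onto direct products of their edge groups are allowed.

Known results of this kind need a condition at both ends of each edge, or a retraction onto the
edge group, or a homomorphism from the whole group `G` which is injective on the edge group.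

Examples.
* `A *_E B` with `B` abelian and `A` in `C` arbitrary: one can adjoin roots and extend the centralizers of
  abelian subgroups, with edge groups of any index.
* `G * ⟨t⟩` modulo the relations `[E, t F t⁻¹]`, with `E`, `F` subgroups of `G` (the hub is `E × F`).
* The fundamental group of a link complement amalgamated along the meridians (one for each
  component) with cyclic subgroups of a group in `C`, generated by arbitrary elements of infinite order;
  attaching an orientable surface with `k + 1` boundary components to a space along `k` of them.

Outline of the proof. A general gluing lemma (`Pool.Agent.U709.Gl.glue`): homomorphisms from the vertex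
stabilizers to a group `W` which are conjugate at the ends of an edge (on the edge group) and in the
orbits of vertices are restrictions, up to conjugacy, of one homomorphism from `G` to `W`. Let `N` be the
group generated by the stabilizers of the vertices of type `A` and the groups `K b`. By ping-pong on the
tree `N` meets `G_b` in the product of `K b` and the edge groups, `G / N` is in `C`, and by the extension
criterion one has to treat `N` and `N ⟨g⟩` with `g` of infinite order modulo `N`. The point is that for
these groups the stabilizer of each hub has a homomorphism onto the direct sum of the edge groups, one
for each orbit. This direct sum is mapped to the restricted wreath product of a free product of vertex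
groups and the finitary permutations of the orbits of edges; the images of the different edge
groups in the hub commute, although all of them are conjugate to subgroups of the same vertex group.
-/

set_option autoImplicit false

namespace Pool.Agent.Results.MP_f7db47_al.OneSidedEdges

open Pool.Agent.Y110.FJ (ClosedE)
open Pool.Agent.U709.Gl (Eg Oth Rg Hubs)
open Pool.Agent.Helper705_SA (IsAmalgam)

theorem result (C : ∀ (G : Type) [Group G], Prop) (hC : ClosedE C) :
    (∀ (G V : Type) [Group G] [MulAction G V] (T : SimpleGraph V), T.IsTree →
      (∀ (g : G) (u v : V), T.Adj u v → T.Adj (g • u) (g • v)) →
      (∀ v : V, C ↥(MulAction.stabilizer G v)) →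
      ∀ (A : V → Prop) (K : V → Subgroup G), Hubs T A K →
        (∀ b, ¬ A b → ∃ (P : Type) (_ : Group P) (f : MulAction.stabilizer G b →* P), C P ∧
          ∀ g, f g = 1 ↔ (g : G) ∈ Rg T K b) → C G) ∧
    (∀ (G V : Type) [Group G] [MulAction G V] (T : SimpleGraph V), T.IsTree →
      (∀ (g : G) (u v : V), T.Adj u v → T.Adj (g • u) (g • v)) →
      (∀ v : V, C ↥(MulAction.stabilizer G v)) →
      ∀ A : V → Prop, (∀ (g : G) v, A v → A (g • v)) → (∀ u v, T.Adj u v → (A u ↔ ¬ A v)) →
        (∀ b a, ¬ A b → T.Adj b a → Eg G a b ⊓
          (⁅MulAction.stabilizer G b, MulAction.stabilizer G b⁆ ⊔ Oth G T b a) = ⊥) → C G) ∧
    (∀ (G : Type) [Group G] (A B : Subgroup G), IsAmalgam A B → C A → C B →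
      A ⊓ B ⊓ ⁅B, B⁆ = ⊥ → C G) :=
  ⟨fun _ _ _ _ _ hT hact hV _ _ h hQ => Pool.Agent.U709.Gl.hubs hC hT hact hV h hQ,
    fun _ _ _ _ _ hT hact hV _ hinv halt hind =>
      Pool.Agent.U709.Gl.hubs_h1 hC hT hact hV hinv halt hind,
    fun _ _ A B h hA hB hE => Pool.Agent.U709.Gl.amalgam_h1 hC A B h hA hB hE⟩

end Pool.Agent.Results.MP_f7db47_al.OneSidedEdges
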