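import Pool.Agent.U731.SG.Sym

set_option autoImplicit false

/-!
# `K_1` of group rings: matrices supported in a hermitian pattern of small spectral span

`R` is any ring and `G` any group. A matrix over `RG` whose support is contained in the support of
a hermitian complex matrix with spectrum in an interval of length at most `3 √2` (off-diagonal
coefficients of absolute value at least one, diagonal arbitrary) is, up to a diagonal matrix of
group elements, a block sum of matrices over the group rings of virtually cyclic subgroups; below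
the length `4` the subgroups are finite. For commutative `R` and every larger length each class
of `K_1(RG)` modulo virtually cyclic subgroups has a representative of this kind.
-/

namespace Pool.Agent.Results.MP_f7db47_al.SymmetricSupport

open ComplexConjugate Matrix

variable {R : Type} [Ring R] {G : Type} [Group G] {κ : Type} [Fintype κ] [DecidableEq κ]

/-- The values of `⟨xS, x⟩` on the unit vectors `x` of `ℓ²(G)^κ` with finite support `T` lie in an
interval `[a, a + s]`; for hermitian `S` this says that the spectrum of right multiplication by `S`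
lies in it. -/
def SpanLE (S : Matrix κ κ (MonoidAlgebra ℂ G)) (s : ℝ) : Prop :=
  ∃ a : ℝ, ∀ (T : Finset (κ × G)) (x : κ × G → ℂ),
    a * ∑ p ∈ T, ‖x p‖ ^ 2
      ≤ (∑ p ∈ T, ∑ q ∈ T, x p * (S p.1 q.1).coeff (p.2⁻¹ * q.2) * conj (x q)).re ∧
    (∑ p ∈ T, ∑ q ∈ T, x p * (S p.1 q.1).coeff (p.2⁻¹ * q.2) * conj (x q)).re
      ≤ (a + s) * ∑ p ∈ T, ‖x p‖ ^ 2

/-- The support of `A` is contained in the support of a hermitian complex matrix `S` and the
identities on the diagonal; the nonzero coefficients of `S`, except those of the identity on the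
diagonal, have absolute value at least one, and the spectrum of `S` lies in an interval of length
`s`. -/
def SupportSpanLE (A : Matrix κ κ (MonoidAlgebra R G)) (s : ℝ) : Prop :=
  ∃ S : Matrix κ κ (MonoidAlgebra ℂ G),
    (∀ i j g, (S j i).coeff g⁻¹ = conj ((S i j).coeff g)) ∧
    (∀ i j g, (S i j).coeff g ≠ 0 → (i = j ∧ g = 1) ∨ 1 ≤ ‖(S i j).coeff g‖) ∧
    (∀ i j g, (A i j).coeff g ≠ 0 → (i = j ∧ g = 1) ∨ (S i j).coeff g ≠ 0) ∧ SpanLE S s

/-- The subgroup `C` is virtually cyclic: it contains a cyclic subgroup of finite index. -/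
def VirtuallyCyclic (C : Subgroup G) : Prop := ∃ z : C, (Subgroup.zpowers z).FiniteIndex

variable (R G κ) in
/-- The subgroup of the general linear group over `RG` which is generated by the images of the
general linear groups over `RC`, `C` a virtually cyclic subgroup. -/
noncomputable def FromVC : Subgroup (Matrix κ κ (MonoidAlgebra R G))ˣ :=
  Subgroup.closure {x | ∃ (C : Subgroup G) (y : (Matrix κ κ (MonoidAlgebra R C))ˣ),
    VirtuallyCyclic C ∧ x.val = y.val.map (MonoidAlgebra.mapDomain C.subtype)}

/-- All coefficients of `A` are zero or elements of `S`. -/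
def CoeffsIn (S : Set R) (A : Matrix κ κ (MonoidAlgebra R G)) : Prop :=
  ∀ i j g, (A i j).coeff g ≠ 0 → (A i j).coeff g ∈ S

/-- The block sum of the matrices `θ a` over the group rings of the subgroups `C a`, induced up to
`RG`; the block `a` lives on the indices `i` with `ρ i = a`. -/
noncomputable def blockSum (ρ : κ → κ) (C : κ → Subgroup G)
    (θ : ∀ a, Matrix {i // ρ i = a} {i // ρ i = a} (MonoidAlgebra R (C a))) :
    Matrix κ κ (MonoidAlgebra R G) := fun i j =>
  if h : ρ j = ρ i then MonoidAlgebra.mapDomain (C (ρ i)).subtype (θ (ρ i) ⟨i, rfl⟩ ⟨j, h⟩) else 0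

/-- For a diagonal matrix `D` of group elements, `D A D⁻¹` is a block sum of matrices over the group
rings of subgroups with the property `Q`, which are invertible if `A` is. -/
def BlocksFrom (Q : Subgroup G → Prop) (A : Matrix κ κ (MonoidAlgebra R G)) : Prop :=
  ∃ (ρ : κ → κ) (u : κ → G) (C : κ → Subgroup G)
    (θ : ∀ a, Matrix {i // ρ i = a} {i // ρ i = a} (MonoidAlgebra R (C a))),
    (∀ a, Q (C a)) ∧
    (Matrix.diagonal fun i => MonoidAlgebra.single (u i) (1 : R)) * A *
      (Matrix.diagonal fun i => MonoidAlgebra.single (u i)⁻¹ (1 : R)) = blockSum ρ C θ ∧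
    (IsUnit A → ∀ a, IsUnit (θ a))

/-- For some `m`, some `C` in the commutator subgroup and some `V` in the subgroup generated by
virtually cyclic subgroups, the matrix `diag(diag(A, 1_m) C, 1) V` has coefficients in `S ∪ {0}` and
support span at most `s`. -/
def HasRep (S : Set R) (s : ℝ) {n : ℕ} (A : Matrix (Fin n) (Fin n) (MonoidAlgebra R G)) : Prop :=
  ∃ (m : ℕ) (C : (Matrix (Fin n ⊕ Fin m) (Fin n ⊕ Fin m) (MonoidAlgebra R G))ˣ)
    (V : (Matrix ((Fin n ⊕ Fin m) ⊕ (Fin n ⊕ Fin m)) ((Fin n ⊕ Fin m) ⊕ (Fin n ⊕ Fin m))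
      (MonoidAlgebra R G))ˣ),
    C ∈ commutator (Matrix (Fin n ⊕ Fin m) (Fin n ⊕ Fin m) (MonoidAlgebra R G))ˣ ∧
    V ∈ FromVC R G ((Fin n ⊕ Fin m) ⊕ (Fin n ⊕ Fin m)) ∧
    CoeffsIn S (fromBlocks (fromBlocks A 0 0 1 * C.val) 0 0 1 * V.val) ∧
    SupportSpanLE (fromBlocks (fromBlocks A 0 0 1 * C.val) 0 0 1 * V.val) s

/-- 1. Let `R` be any ring, `G` any group and `A` a square matrix over `RG` which is supported in a
hermitian matrix of span at most `3 √2`. Then `D A D⁻¹` is a block sum of matrices over group rings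
of virtually cyclic subgroups, for a diagonal matrix `D` of group elements; if `A` is invertible, the
blocks are invertible and `A` is a product of invertible matrices over group rings of virtually cyclic
subgroups.
2. If the span is less than `4`, then the blocks come from finite subgroups.
3. Let `R` be commutative and nontrivial, `S` a set of additive generators of `R` with `1 ∈ S` and
`-S = S`, and `s > 3 √2`. Then every invertible matrix over `RG` has, after stabilisation and up to
factors in the commutator subgroup and in the subgroup generated by virtually cyclic subgroups,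
coefficients in `S ∪ {0}` and support span at most `s`. -/
theorem result :
    (∀ (R : Type) [Ring R] (G : Type) [Group G] (s : ℝ), s ^ 2 ≤ 18 →
      ∀ (n : ℕ) (A : Matrix (Fin n) (Fin n) (MonoidAlgebra R G)), SupportSpanLE A s →
        BlocksFrom VirtuallyCyclic A ∧
        ∀ B : (Matrix (Fin n) (Fin n) (MonoidAlgebra R G))ˣ, B.val = A →
          B ∈ FromVC R G (Fin n)) ∧
    (∀ (R : Type) [Ring R] (G : Type) [Group G] (s : ℝ), s < 4 →
      ∀ (n : ℕ) (A : Matrix (Fin n) (Fin n) (MonoidAlgebra R G)), SupportSpanLE A s →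
        BlocksFrom (fun C => Finite C) A) ∧
    ∀ (R : Type) [CommRing R] [Nontrivial R] (S : Set R), (1 : R) ∈ S → (∀ r ∈ S, -r ∈ S) →
      AddSubgroup.closure S = ⊤ → ∀ (G : Type) [Group G] (s : ℝ), 0 < s → 18 < s ^ 2 →
      ∀ (n : ℕ) (A : (Matrix (Fin n) (Fin n) (MonoidAlgebra R G))ˣ), HasRep S s A.val := by
  refine ⟨fun R _ G _ s hs n A hA => ?_, fun R _ G _ s hs n A hA => ?_,
    fun R _ _ S h1 h2 h3 G _ s hs0 hs n A => ?_⟩
  · obtain ⟨ρ, u, C, hC, hst⟩ := U731.SG.smallSpan_vc s hs A hA
    refine ⟨?_, ?_⟩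
    · obtain ⟨θ, h1, h2, h3⟩ := U731.SG.blocks_of_struct (fun C => TH6.PF.IsVC C) A ρ u C hC hst
      exact ⟨ρ, u, C, θ, h1, h2, h3⟩
    · rintro B rfl
      exact U731.SG.mem_gen_of_struct B ρ u C hC hst
  · obtain ⟨ρ, u, C, hC, hst⟩ := U731.SG.smallSpan_fin s hs A hA
    obtain ⟨θ, h1, h2, h3⟩ := U731.SG.blocks_of_struct (fun C => Finite C) A ρ u C hC hst
    exact ⟨ρ, u, C, θ, h1, h2, h3⟩
  · exact U731.SG.smallSpan_rep ⟨h1, h2, h3⟩ A s hs0 hs

end Pool.Agent.Results.MP_f7db47_al.SymmetricSupport
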